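import Pool.Agent.helper37.L5.Spec

/-!
# l5:FRE5 (project L5, MP_baa4d7_al): a character above a given one

`S ≤ H`, `ζ ∈ IrrOn S`. The induced function `indf H S ζ` is not zero at `1`, so some `φ ∈ IrrOn H` has
`m φ ζ ≠ 0` (CRE of DR), and `m φ ζ = mt S φ ζ`.
-/

set_option autoImplicit false

namespace Pool.Agent.L5

open Pool.Agent.helper58.DC Pool.Agent.DI Pool.Agent.GR Pool.Agent.OB Pool.Agent.DR Pool.Agent.FI Pool.Agent.FI3 Pool.Agent.FI4 Pool.Agent.FI4I Pool.Agent.LE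

theorem FRE5 (hCRE : CRE_stmt) (hB2 : B2_stmt) : FRE5_stmt := by
  classical
  intro G _ _ S H hSH ζ hζ
  obtain ⟨m, -, hm2, hm3⟩ := hCRE G H S hSH
  have hS0 : (Nat.card S : ℂ) ≠ 0 := Nat.cast_ne_zero.mpr Nat.card_pos.ne'
  have hζ1 : ζ 1 ≠ 0 := by
    obtain ⟨n, hn0, hn, -⟩ := ((hB2 G S).2 ζ hζ).1
    rw [hn]
    exact_mod_cast hn0.ne'
  have hind : indf H S ζ 1 ≠ 0 := by
    have : indf H S ζ 1 = (Nat.card S : ℂ)⁻¹ * ((Nat.card H : ℂ) * ζ 1) := by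
      unfold indf
      congr 1
      have hfin : (H : Set G).Finite := Set.toFinite _
      rw [finsum_mem_eq_finite_toFinset_sum _ hfin]
      have : ∀ t ∈ hfin.toFinset, ζ (t⁻¹ * 1 * t) = ζ 1 := by
        intro t _
        rw [mul_one, inv_mul_cancel]
      rw [Finset.sum_congr rfl this, Finset.sum_const, nsmul_eq_mul]
      congr 2
      rw [← Set.ncard_eq_toFinset_card _ hfin]
      rfl
    rw [this]
    exact mul_ne_zero (inv_ne_zero hS0)
      (mul_ne_zero (Nat.cast_ne_zero.mpr Nat.card_pos.ne') hζ1)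
  obtain ⟨φ, hφ, hmφ⟩ : ∃ φ ∈ IrrOn H, m φ ζ ≠ 0 := by
    by_contra hcon
    push Not at hcon
    apply hind
    rw [hm2 ζ hζ 1]
    apply finsum_mem_eq_zero_of_forall_eq_zero
    intro φ hφ
    rw [hcon φ hφ]
    simp
  refine ⟨φ, hφ, ?_⟩
  unfold FI.mt
  rw [hm3 φ hφ ζ hζ, mul_div_cancel_left₀ _ hS0]
  exact_mod_cast hmφ

end Pool.Agent.L5
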